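import Pool.Agent.Helper6.NX.GoalsB2

/-! Packet NX-COREA: the recursion and the selection. -/

set_option linter.unusedVariables false

namespace Pool.Agent.Helper60.NX

open Matrix Equiv Filter Topology Pool.Agent.Helper15.An Pool.Agent.Helper6.NX

theorem tends_nat_rpow {s : ℝ} (hs : s < 0) : Tendsto (fun n : ℕ => (n : ℝ) ^ s) atTop (𝓝 0) := by
  have h := (tendsto_rpow_neg_atTop (y := -s) (by linarith)).comp tendsto_natCast_atTop_atTop
  rw [neg_neg] at h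
  exact h

/-- the error term `b'` -/
noncomputable def bb (δ : ℝ) (n : ℕ) : ℝ :=
  2 * ((n : ℝ) ^ (-(3 * δ)) + 2 * √((n : ℝ) ^ (-(3 * δ)))) + 4 * (2 * δ) * (n : ℝ) ^ (-(2 * δ)) +
    64 * (n : ℝ) ^ (-(1 / 2 : ℝ))

theorem bb_small {δ : ℝ} (h0 : 0 < δ) (h1 : δ ≤ 1 / 50000) :
    ∀ᶠ n : ℕ in atTop, (n : ℝ) ^ δ * bb δ n ≤ 1 / 1000 := by
  have t1 := tends_nat_rpow (s := -(2 * δ)) (by linarith)
  have t2 := tends_nat_rpow (s := -(δ / 2)) (by linarith)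
  have t3 := tends_nat_rpow (s := -δ) (by linarith)
  have t4 := tends_nat_rpow (s := δ - 1 / 2) (by linarith)
  have t : Tendsto (fun n : ℕ => 2 * ((n : ℝ) ^ (-(2 * δ)) + 2 * (n : ℝ) ^ (-(δ / 2))) +
      4 * (2 * δ) * (n : ℝ) ^ (-δ) + 64 * (n : ℝ) ^ (δ - 1 / 2)) atTop
      (𝓝 (2 * (0 + 2 * 0) + 4 * (2 * δ) * 0 + 64 * 0)) :=
    (((t1.add (t2.const_mul 2)).const_mul 2).add (t3.const_mul _)).add (t4.const_mul 64)
  have e : (2 * (0 + 2 * 0) + 4 * (2 * δ) * 0 + 64 * 0 : ℝ) = 0 := by ring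
  rw [e] at t
  filter_upwards [t.eventually (ge_mem_nhds (show (0 : ℝ) < 1 / 1000 by norm_num)),
    eventually_gt_atTop 0] with n hn hn0
  have hnp : (0 : ℝ) < n := by exact_mod_cast hn0
  refine le_trans (le_of_eq ?_) hn
  have q1 : (n : ℝ) ^ δ * (n : ℝ) ^ (-(3 * δ)) = (n : ℝ) ^ (-(2 * δ)) := by
    rw [← Real.rpow_add hnp]; congr 1; ring
  have q2 : (n : ℝ) ^ δ * √((n : ℝ) ^ (-(3 * δ))) = (n : ℝ) ^ (-(δ / 2)) := by
    rw [Real.sqrt_eq_rpow, ← Real.rpow_mul hnp.le, ← Real.rpow_add hnp]; congr 1; ring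
  have q3 : (n : ℝ) ^ δ * (n : ℝ) ^ (-(2 * δ)) = (n : ℝ) ^ (-δ) := by
    rw [← Real.rpow_add hnp]; congr 1; ring
  have q4 : (n : ℝ) ^ δ * (n : ℝ) ^ (-(1 / 2 : ℝ)) = (n : ℝ) ^ (δ - 1 / 2) := by
    rw [← Real.rpow_add hnp]; congr 1
  unfold bb
  calc (n : ℝ) ^ δ * (2 * ((n : ℝ) ^ (-(3 * δ)) + 2 * √((n : ℝ) ^ (-(3 * δ)))) +
        4 * (2 * δ) * (n : ℝ) ^ (-(2 * δ)) + 64 * (n : ℝ) ^ (-(1 / 2 : ℝ)))
      = 2 * ((n : ℝ) ^ δ * (n : ℝ) ^ (-(3 * δ)) + 2 * ((n : ℝ) ^ δ * √((n : ℝ) ^ (-(3 * δ))))) +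
        4 * (2 * δ) * ((n : ℝ) ^ δ * (n : ℝ) ^ (-(2 * δ))) +
        64 * ((n : ℝ) ^ δ * (n : ℝ) ^ (-(1 / 2 : ℝ))) := by ring
    _ = _ := by rw [q1, q2, q3, q4]

theorem bb_nonneg {δ : ℝ} (h0 : 0 < δ) (n : ℕ) : 0 ≤ bb δ n := by
  unfold bb
  positivity

theorem log_big {δ : ℝ} (h0 : 0 < δ) :
    ∀ᶠ n : ℕ in atTop, 1 ≤ 2 * δ * Real.log n ∧ 16 * Real.log 33 / Real.log n ≤ 1 / 1000 := by
  have t : Tendsto (fun n : ℕ => Real.log (n : ℝ)) atTop atTop :=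
    Real.tendsto_log_atTop.comp tendsto_natCast_atTop_atTop
  filter_upwards [t.eventually_ge_atTop (1 / (2 * δ)), t.eventually_ge_atTop (16000 * Real.log 33),
    t.eventually_gt_atTop 0] with n h1 h2 h3
  constructor
  · rw [div_le_iff₀ (by linarith)] at h1
    linarith
  · rw [div_le_iff₀ h3]
    linarith

theorem rpow_big {δ : ℝ} (h1 : δ < 1) (A : ℝ) :
    ∀ᶠ n : ℕ in atTop, A ≤ (n : ℝ) ^ (1 - δ) := by
  have t := (tendsto_rpow_atTop (y := 1 - δ) (by linarith)).comp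
    (tendsto_natCast_atTop_atTop (R := ℝ))
  exact t.eventually_ge_atTop A

theorem prT_one {n : ℕ} (ω : Perm (Fin n) → ℝ) (a b : Fin n) :
    ∑ w : Perm (Fin n), (if w a = b then ω w else 0) =
      prT ω (⟨fun _ : Fin 1 => a, fun _ _ _ => Subsingleton.elim _ _⟩ : Fin 1 ↪ Fin n)
        ⟨fun _ => b, fun _ _ _ => Subsingleton.elim _ _⟩ := by
  unfold prT
  rw [Finset.sum_filter]
  refine Finset.sum_congr rfl fun w _ => ?_
  simp only [Function.Embedding.coeFn_mk, forall_const]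

/-- pairs as embeddings -/
def prE {n : ℕ} (a a' : Fin n) (h : a ≠ a') : Fin 2 ↪ Fin n :=
  ⟨![a, a'], by
    intro i j hij
    fin_cases i <;> fin_cases j <;> simp_all⟩

theorem prT_two {n : ℕ} (ω : Perm (Fin n) → ℝ) (a a' b b' : Fin n) (h : a ≠ a') (h' : b ≠ b') :
    ∑ w : Perm (Fin n), (if w a = b ∧ w a' = b' then ω w else 0) =
      prT ω (prE a a' h) (prE b b' h') := by
  unfold prT
  rw [Finset.sum_filter]
  refine Finset.sum_congr rfl fun w _ => ?_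
  congr 1
  simp [prE, Fin.forall_fin_two]

theorem mix2_of {n : ℕ} {δ τ c₀ : ℝ} {ν ω : Perm (Fin n) → ℝ} (hn : 1 ≤ n) (hδ : 0 < δ)
    (h : CoreHyp n δ τ c₀ ν ω) : Mix2 ω := by
  have hnd : 1 ≤ (n : ℝ) ^ δ := Real.one_le_rpow (by exact_mod_cast hn) hδ.le
  refine ⟨fun a b => ?_, h.lo1, fun a a' b b' ha hb => ?_⟩
  · rw [prT_one]
    have := h.mix 1 (by push_cast; linarith)
      (⟨fun _ : Fin 1 => a, fun _ _ _ => Subsingleton.elim _ _⟩ : Fin 1 ↪ Fin n)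
      ⟨fun _ => b, fun _ _ _ => Subsingleton.elim _ _⟩
    simpa using this
  · rw [prT_two ω a a' b b' ha hb]
    have := h.mix 2 (by push_cast; linarith) (prE a a' ha) (prE b b' hb)
    refine this.trans (le_of_eq ?_)
    congr 1
    rw [Nat.descFactorial_succ, Nat.descFactorial_one]
    push_cast [Nat.cast_sub hn]
    ring

theorem thmCOREA (hvp : S_VP) (hvc : S_VC) (hcv : S_CV) (hrec : S_REC) (htail : S_TAIL)
    (hsel : S_SEL) : S_COREA := by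
  intro δ lam τ c₀ hδ hδ1 hlam hlam1 hτ hτ1 hc₀
  filter_upwards [bb_small hδ hδ1, log_big hδ, rpow_big (δ := δ) (by linarith) 400,
    rpow_big (δ := δ) (by linarith) (1 / lam), eventually_ge_atTop 3] with n hb hl hK1 hK2 hn3
  intro ν ω hC
  obtain ⟨hl1, hl2⟩ := hl
  have hn2 : 2 ≤ n := by omega
  have hn1 : 1 ≤ n := by omega
  have hnr : (1 : ℝ) < n := by exact_mod_cast (by omega : 1 < n)
  have hnp : (0 : ℝ) < n := by linarith
  have hlog : 0 < Real.log n := Real.log_pos hnr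
  set K : ℝ := H ν / Real.log n with hKdef
  have hHK : H ν = Real.log n * K := by rw [hKdef]; field_simp
  have hKlo : (n : ℝ) ^ (1 - δ) ≤ K := by
    rw [hKdef, le_div_iff₀ hlog]
    exact hC.lo
  have hK400 : 400 ≤ K := hK1.trans hKlo
  have hKlam : 1 ≤ lam * K := by
    have : 1 / lam ≤ K := hK2.trans hKlo
    rwa [div_le_iff₀ hlam, mul_comm] at this
  obtain ⟨-, -, -, -, v5, ⟨v6a, v6⟩, v7⟩ := hvp n ν hn2 hC.hν
  obtain ⟨hνν, -, -, -, hHmono, -, -⟩ := hcv (Perm (Fin n)) ν ν ν ν hC.hν hC.hν hC.hν hC.hν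
  obtain ⟨-, -, -, -, hH3, -, -⟩ := hcv (Perm (Fin n)) (conv ν ν) ν ν ν hνν hC.hν hC.hν hC.hν
  obtain ⟨-, -, -, -, w5, ⟨w6a, w6⟩, w7⟩ := hvp n (conv ν ν) hn2 hνν
  obtain ⟨hW, -, -⟩ := hvc n ν hn2 hC.hν
  have hKsum : K = ∑ k ∈ Finset.range n, VV ν k := by
    have h1 := (v6 n le_rfl).1
    rw [v7 n, hHK] at h1
    exact (mul_left_cancel₀ hlog.ne' h1).symm
  have hWsum : ∑ k ∈ Finset.range n, (VV (conv ν ν) k - VV ν k) ≤ τ * K := by
    rw [Finset.sum_sub_distrib, ← hKsum]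
    have h1 := (w6 n le_rfl).1
    rw [w7 n] at h1
    have h2 : H (conv ν ν) ≤ (1 + τ) * H ν := hH3.trans hC.tri
    rw [← h1, hHK] at h2
    have h3 : Real.log n * (∑ k ∈ Finset.range n, VV (conv ν ν) k) ≤
        Real.log n * ((1 + τ) * K) := by linarith
    have h4 := le_of_mul_le_mul_left h3 hlog
    linarith
  have hωl : IsLaw ω := ⟨hC.hω.nonneg, hC.hω.sum⟩
  have hθ : 0 ≤ (n : ℝ) ^ (-(3 * δ)) := Real.rpow_nonneg hnp.le _
  have hR := fun k => hrec n k ν ω ((n : ℝ) ^ (-(3 * δ))) (2 * δ) hn3 hC.hν hωl hθ hC.near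
    (mix2_of hn1 hδ hC) (by linarith) hl1
  set a : ℝ := 4 * (2 * δ) + 16 * Real.log 33 / Real.log n with hadef
  have ha0 : 0 ≤ a := by
    have : 0 ≤ Real.log 33 := Real.log_nonneg (by norm_num)
    positivity
  have hR' : ∀ k, VV ν (2 * k) ≤ 2 * VV ν k ^ 2 + a * VV ν k +
      2 * (VV (conv ν ν) k - VV ν k) + bb δ n := fun k => hR k
  set kC : ℕ := ⌈400 * K⌉₊ with hkC
  have hkC1 : 400 * K ≤ kC := Nat.le_ceil _
  have hkC2 : (kC : ℝ) < 400 * K + 1 := Nat.ceil_lt_add_one (by linarith)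
  have hkC3 : 1 ≤ kC := by
    have : (1 : ℝ) ≤ kC := by linarith
    exact_mod_cast this
  have hT := htail n kC (VV ν) (fun k => VV (conv ν ν) k - VV ν k) K 400 τ a (bb δ n) (by norm_num)
    ha0 (bb_nonneg hδ n) v5 (fun k hk => (v6 k hk).2) hKsum (fun k => by linarith [hW k])
    hWsum hkC1 hkC3 hR'
  have hnb : (n : ℝ) * bb δ n ≤ 1 / 1000 * K := by
    have e1 : (n : ℝ) = (n : ℝ) ^ (1 - δ) * (n : ℝ) ^ δ := by
      rw [← Real.rpow_add hnp]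
      simp
    calc (n : ℝ) * bb δ n = (n : ℝ) ^ (1 - δ) * ((n : ℝ) ^ δ * bb δ n) := by
          conv_lhs => rw [e1]
          ring
      _ ≤ (n : ℝ) ^ (1 - δ) * (1 / 1000) :=
          mul_le_mul_of_nonneg_left hb (Real.rpow_nonneg hnp.le _)
      _ ≤ K * (1 / 1000) := by linarith
      _ = 1 / 1000 * K := by ring
  have ha1 : a ≤ 8 / 50000 + 1 / 1000 := by
    rw [hadef]; linarith
  have hTail : K - ∑ k ∈ Finset.range (2 * kC), VV ν k ≤ 1 / 50 * K := by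
    have h1 : (4 / 400 + 2 * a + 4 * τ) * K ≤ (4 / 400 + 2 * (8 / 50000 + 1 / 1000) +
        4 * (1 / 10000)) * K :=
      mul_le_mul_of_nonneg_right (by linarith) (by linarith)
    have h2 : 2 * (n : ℝ) * bb δ n = 2 * ((n : ℝ) * bb δ n) := by ring
    rw [h2] at hT
    linarith
  have hB : ((2 * kC : ℕ) : ℝ) ≤ 3 * 400 * K := by
    push_cast
    linarith
  set L : ℕ := ⌈lam * K⌉₊ with hL
  have hL1 : lam * K ≤ L := Nat.le_ceil _
  have hL2 : (L : ℝ) < lam * K + 1 := Nat.ceil_lt_add_one (by linarith)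
  have hL3 : 1 ≤ L := by
    have : (1 : ℝ) ≤ L := by linarith
    exact_mod_cast this
  obtain ⟨k, hkB, hkn, s1, s2, s3, s4⟩ := hsel n (2 * kC) L (VV ν)
    (fun k => VV (conv ν ν) k - VV ν k) K 400 τ (1 / 50) (by norm_num) (by norm_num) (by norm_num)
    hτ hL3 (by linarith) v5 (fun k hk => (v6 k hk).2) hKsum (fun k => by linarith [hW k])
    hWsum (fun k hk => by simp only [(v6 k hk).2, (w6 k hk).2, sub_zero]) hTail hB
  have hAA : ∀ j, H ν - AA ν j = Real.log n * (K - ∑ i ∈ Finset.range j, VV ν i) := by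
    intro j
    rw [v7 j, hHK]; ring
  refine ⟨2 * kC, L, k, hL3, ?_, ?_, hkB, hkn, ?_, ?_, ?_, ?_, hL1⟩
  · linarith
  · rw [hAA, hHK]
    nlinarith [mul_le_mul_of_nonneg_left hTail hlog.le]
  · rw [hAA, hHK]
    nlinarith [mul_le_mul_of_nonneg_left s1 hlog.le]
  · norm_num at s2 ⊢
    linarith
  · linarith
  · refine s4.trans ?_
    rw [div_le_iff₀ (by linarith)]
    linarith

end Pool.Agent.Helper60.NX
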