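import Pool.Agent.Helper6.NX.GoalsA

/-! Packet NX-L9: continuity of the conditional entropy in total variation. -/

set_option linter.unusedVariables false

namespace Pool.Agent.Helper60.NX

open Pool.Agent.Helper6.NX

theorem law_mix {Ω δ : Type} [Fintype Ω] (p : Bool → ℝ) (Q : Bool → Ω → ℝ) (P : Ω → ℝ)
    (W : Ω → δ) (h : ∀ ω, ∑ i, p i * Q i ω = P ω) (a : δ) :
    law (mixl p Q) (fun z => W z.2) a = law P W a := by
  classical
  unfold law mixl
  rw [Fintype.sum_prod_type, Finset.sum_comm]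
  refine Finset.sum_congr rfl fun ω _ => ?_
  by_cases hw : W ω = a
  · simp only [hw, if_true]
    exact h ω
  · simp [hw]

theorem ent_mix {Ω δ : Type} [Fintype Ω] (p : Bool → ℝ) (Q : Bool → Ω → ℝ) (P : Ω → ℝ)
    (W : Ω → δ) (h : ∀ ω, ∑ i, p i * Q i ω = P ω) :
    ent (mixl p Q) (fun z => W z.2) = ent P W := by
  unfold ent
  congr 1
  rw [Fintype.sum_prod_type, Finset.sum_comm]
  refine Finset.sum_congr rfl fun ω _ => ?_
  simp only [law_mix p Q P W h]
  rw [← Finset.sum_mul]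
  unfold mixl
  simp only
  rw [h ω]

theorem cent_mix {Ω α β : Type} [Fintype Ω] (p : Bool → ℝ) (Q : Bool → Ω → ℝ) (P : Ω → ℝ)
    (X : Ω → α) (Y : Ω → β) (h : ∀ ω, ∑ i, p i * Q i ω = P ω) :
    cent (mixl p Q) (fun z => X z.2) (fun z => Y z.2) = cent P X Y := by
  unfold cent
  rw [ent_mix p Q P (fun ω => (X ω, Y ω)) h, ent_mix p Q P Y h]

theorem ent_bool (p : Bool → ℝ) : ent p (fun i => i) =
    -(p true * Real.log (p true) + p false * Real.log (p false)) := by
  have hl : ∀ i, law p (fun i => i) i = p i := by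
    intro i
    unfold law
    cases i <;> simp
  unfold ent
  simp only [hl, Fintype.sum_bool]

theorem h_le {t : ℝ} (h0 : 0 < t) (h1 : t < 1) :
    -(t * Real.log t + (1 - t) * Real.log (1 - t)) ≤ 2 * √t := by
  have hs : 0 < √t := Real.sqrt_pos.2 h0
  have hsq : √t * √t = t := Real.mul_self_sqrt h0.le
  have e1 : -Real.log (√t) ≤ (√t)⁻¹ - 1 := by
    rw [← Real.log_inv]
    have := Real.log_le_sub_one_of_pos (inv_pos.2 hs)
    linarith
  have e2 : Real.log t = 2 * Real.log (√t) := by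
    conv_lhs => rw [← hsq]
    rw [Real.log_mul hs.ne' hs.ne']
    ring
  have e3 : t * (√t)⁻¹ = √t := by
    nth_rw 1 [← hsq]
    field_simp
  have e4 : -Real.log (1 - t) ≤ (1 - t)⁻¹ - 1 := by
    rw [← Real.log_inv]
    have := Real.log_le_sub_one_of_pos (inv_pos.2 (by linarith : (0 : ℝ) < 1 - t))
    linarith
  have e5 : (1 - t) * (-Real.log (1 - t)) ≤ (1 - t) * ((1 - t)⁻¹ - 1) :=
    mul_le_mul_of_nonneg_left e4 (by linarith)
  have e6 : (1 - t) * ((1 - t)⁻¹ - 1) = t := by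
    have : (1 - t) ≠ 0 := by linarith
    field_simp
    ring
  have e7 : t * (-Real.log (√t)) ≤ t * ((√t)⁻¹ - 1) := mul_le_mul_of_nonneg_left e1 h0.le
  have e8 : t * ((√t)⁻¹ - 1) = √t - t := by rw [mul_sub, e3, mul_one]
  rw [e2]
  nlinarith

theorem cent_nonneg (hl2 : S_L2) {Ω α β : Type} [Fintype Ω] (P : Ω → ℝ) (X : Ω → α) (Y : Ω → β)
    (hP : IsLaw P) : 0 ≤ cent P X Y := by
  unfold cent
  have := hl2 Ω (α × β) β P (fun ω => (X ω, Y ω)) Y hP (by
    intro ω ω' _ _ h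
    exact (Prod.mk.inj h).2)
  linarith

theorem cent_le_log (hl3c : S_L3C) {Ω α β : Type} [Fintype Ω] (P : Ω → ℝ) (X : Ω → α) (Y : Ω → β)
    (N : ℕ) (s : β → Finset α) (hP : IsLaw P) (hN : 1 ≤ N) (hs : ∀ b, (s b).card ≤ N)
    (hX : ∀ ω, X ω ∈ s (Y ω)) : cent P X Y ≤ Real.log N := by
  have h1 := (hl3c Ω α β P X Y hP).1 s (fun ω _ => hX ω)
  refine h1.trans ?_
  calc ∑ ω, P ω * Real.log ((s (Y ω)).card : ℝ) ≤ ∑ ω, P ω * Real.log N := by
        refine Finset.sum_le_sum fun ω _ => mul_le_mul_of_nonneg_left ?_ (hP.1 ω)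
        have hc : 0 < (s (Y ω)).card := Finset.card_pos.2 ⟨_, hX ω⟩
        exact Real.log_le_log (by exact_mod_cast hc) (by exact_mod_cast hs _)
    _ = Real.log N := by rw [← Finset.sum_mul, hP.2, one_mul]

/-- upper bound by the mixture -/
theorem cent_upper (hl2 : S_L2) (hl3c : S_L3C) (hl4 : S_L4) (hl7 : S_L7) {Ω α β : Type} [Fintype Ω]
    (p : Bool → ℝ) (Q : Bool → Ω → ℝ) (P : Ω → ℝ) (X : Ω → α) (Y : Ω → β)
    (h : ∀ ω, ∑ i, p i * Q i ω = P ω) (hp : IsLaw p) (hQ : ∀ i, IsLaw (Q i)) :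
    cent P X Y ≤ ∑ i, p i * cent (Q i) X Y + ent p (fun i => i) := by
  obtain ⟨hM, h7, -, h7b, -⟩ := hl7 Bool Ω α β Bool p Q (fun _ => X) (fun _ => Y) (fun i => i) hp hQ
  rw [← h7, ← h7b, ← cent_mix p Q P X Y h]
  set M := mixl p Q with hMdef
  unfold cent
  have a1 := hl2 (Bool × Ω) (α × (β × Bool)) (α × β) M (fun z => (X z.2, (Y z.2, z.1)))
    (fun z => (X z.2, Y z.2)) hM (by
      intro ω ω' _ _ h
      simp only [Prod.mk.injEq] at h ⊢
      tauto)
  have a2 := (hl4 (Bool × Ω) β Bool Unit M (fun z => Y z.2) (fun z => z.1) (fun _ => ()) hM).2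
  have a3 := hl2 (Bool × Ω) (β × Bool × Unit) (β × Bool) M (fun z => (Y z.2, z.1, ()))
    (fun z => (Y z.2, z.1)) hM (by
      intro ω ω' _ _ h
      simp only [Prod.mk.injEq] at h ⊢
      tauto)
  have a4 := hl2 (Bool × Ω) β (β × Unit) M (fun z => Y z.2)
    (fun z => (Y z.2, ())) hM (by
      intro ω ω' _ _ h
      simp only [Prod.mk.injEq] at h ⊢
      tauto)
  have a5 := hl2 (Bool × Ω) Bool (Bool × Unit) M (fun z => z.1)
    (fun z => (z.1, ())) hM (by
      intro ω ω' _ _ h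
      simp only [Prod.mk.injEq] at h ⊢
      tauto)
  have a6 := (hl3c (Bool × Ω) Unit Unit M (fun _ => ()) (fun _ => ()) hM).2.2.1
  linarith

/-- lower bound by the mixture -/
theorem cent_lower (hl2 : S_L2) (hl4 : S_L4) (hl7 : S_L7) {Ω α β : Type} [Fintype Ω]
    (p : Bool → ℝ) (Q : Bool → Ω → ℝ) (P : Ω → ℝ) (X : Ω → α) (Y : Ω → β)
    (h : ∀ ω, ∑ i, p i * Q i ω = P ω) (hp : IsLaw p) (hQ : ∀ i, IsLaw (Q i)) :
    ∑ i, p i * cent (Q i) X Y ≤ cent P X Y := by
  obtain ⟨hM, h7, -, h7b, -⟩ := hl7 Bool Ω α β Bool p Q (fun _ => X) (fun _ => Y) (fun i => i) hp hQ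
  rw [← h7, ← cent_mix p Q P X Y h]
  set M := mixl p Q with hMdef
  have a0 := (hl4 (Bool × Ω) α Bool β M (fun z => X z.2) (fun z => z.1) (fun z => Y z.2) hM).1
  refine le_trans ?_ a0
  unfold cent
  have a1 := hl2 (Bool × Ω) (α × (Bool × β)) (α × (β × Bool)) M (fun z => (X z.2, (z.1, Y z.2)))
    (fun z => (X z.2, (Y z.2, z.1))) hM (by
      intro ω ω' _ _ h
      simp only [Prod.mk.injEq] at h ⊢
      tauto)
  have a2 := hl2 (Bool × Ω) (β × Bool) (Bool × β) M (fun z => (Y z.2, z.1))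
    (fun z => (z.1, Y z.2)) hM (by
      intro ω ω' _ _ h
      simp only [Prod.mk.injEq] at h ⊢
      tauto)
  linarith

theorem thmL9 (hl2 : S_L2) (hl3c : S_L3C) (hl4 : S_L4) (hl7 : S_L7) : S_L9 := by
  intro Ω α β _ P Q X Y t N s hP hQ hPQ hN hs hX
  set t₀ : ℝ := (∑ ω, |P ω - Q ω|) / 2 with ht₀
  have h00 : 0 ≤ t₀ := by
    rw [ht₀]
    exact div_nonneg (Finset.sum_nonneg fun ω _ => abs_nonneg _) (by norm_num)
  have htt : t₀ ≤ t := by rw [ht₀]; linarith
  have hlogN : 0 ≤ Real.log N := Real.log_natCast_nonneg N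
  have hm : ∑ ω, min (P ω) (Q ω) = 1 - t₀ := by
    have : ∀ ω, min (P ω) (Q ω) = (P ω + Q ω - |P ω - Q ω|) / 2 := by
      intro ω
      rcases le_total (P ω) (Q ω) with h | h
      · rw [min_eq_left h, abs_of_nonpos (by linarith)]; ring
      · rw [min_eq_right h, abs_of_nonneg (by linarith)]; ring
    simp only [this]
    rw [← Finset.sum_div, Finset.sum_sub_distrib, Finset.sum_add_distrib, hP.2, hQ.2, ht₀]
    ring
  have hm0 : ∀ ω, 0 ≤ min (P ω) (Q ω) := fun ω => le_min (hP.1 ω) (hQ.1 ω)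
  have h01 : t₀ ≤ 1 := by
    have := Finset.sum_nonneg (s := Finset.univ) fun ω _ => hm0 ω
    linarith
  have hcQ := cent_nonneg hl2 Q X Y hQ
  have hcP := cent_le_log hl3c P X Y N s hP hN hs hX
  rcases h00.eq_or_lt with h0 | h0
  · -- `P = Q`
    have hz : ∑ ω, |P ω - Q ω| = 0 := by linarith
    have he : P = Q := by
      funext ω
      have := (Finset.sum_eq_zero_iff_of_nonneg (fun ω _ => abs_nonneg (P ω - Q ω))).1 hz ω
        (Finset.mem_univ ω)
      have := abs_eq_zero.1 this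
      linarith
    rw [he]
    have := mul_nonneg (h00.trans htt) hlogN
    have := Real.sqrt_nonneg t
    linarith
  rcases h01.eq_or_lt with h1 | h1
  · have : Real.log N ≤ t * Real.log N := by nlinarith
    have := Real.sqrt_nonneg t
    linarith
  have h1' : 0 < 1 - t₀ := by linarith
  set p : Bool → ℝ := fun b => if b then t₀ else 1 - t₀ with hpdef
  have hp : IsLaw p := by
    refine ⟨fun b => ?_, ?_⟩
    · cases b <;> simp [hpdef] <;> linarith
    · simp [hpdef]
  set R : Ω → ℝ := fun ω => min (P ω) (Q ω) / (1 - t₀) with hR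
  have hRl : IsLaw R := by
    refine ⟨fun ω => div_nonneg (hm0 ω) h1'.le, ?_⟩
    simp only [hR]
    rw [← Finset.sum_div, hm, div_self h1'.ne']
  set P' : Ω → ℝ := fun ω => (P ω - min (P ω) (Q ω)) / t₀ with hP'
  have hPl : IsLaw P' := by
    refine ⟨fun ω => div_nonneg (by linarith [min_le_left (P ω) (Q ω)]) h0.le, ?_⟩
    simp only [hP']
    rw [← Finset.sum_div, Finset.sum_sub_distrib, hm, hP.2]
    rw [show (1 : ℝ) - (1 - t₀) = t₀ by ring, div_self h0.ne']
  set Q' : Ω → ℝ := fun ω => (Q ω - min (P ω) (Q ω)) / t₀ with hQ'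
  have hQl : IsLaw Q' := by
    refine ⟨fun ω => div_nonneg (by linarith [min_le_right (P ω) (Q ω)]) h0.le, ?_⟩
    simp only [hQ']
    rw [← Finset.sum_div, Finset.sum_sub_distrib, hm, hQ.2]
    rw [show (1 : ℝ) - (1 - t₀) = t₀ by ring, div_self h0.ne']
  have u := cent_upper hl2 hl3c hl4 hl7 p (fun b => if b then P' else R) P X Y (by
    intro ω
    simp only [Fintype.sum_bool, hpdef, hP', hR, if_true, Bool.false_eq_true, if_false]
    field_simp
    ring) hp (by
      intro b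
      cases b
      · simpa using hRl
      · simpa using hPl)
  have l := cent_lower hl2 hl4 hl7 p (fun b => if b then Q' else R) Q X Y (by
    intro ω
    simp only [Fintype.sum_bool, hpdef, hQ', hR, if_true, Bool.false_eq_true, if_false]
    field_simp
    ring) hp (by
      intro b
      cases b
      · simpa using hRl
      · simpa using hQl)
  rw [ent_bool] at u
  simp only [Fintype.sum_bool, hpdef, if_true, Bool.false_eq_true, if_false] at u l
  have e1 := h_le h0 h1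
  have e2 := cent_le_log hl3c P' X Y N s hPl hN hs hX
  have e3 := cent_nonneg hl2 Q' X Y hQl
  have e4 : t₀ * cent P' X Y ≤ t₀ * Real.log N := mul_le_mul_of_nonneg_left e2 h0.le
  have e5 : 0 ≤ t₀ * cent Q' X Y := mul_nonneg h0.le e3
  have e6 : t₀ * Real.log N ≤ t * Real.log N := mul_le_mul_of_nonneg_right htt hlogN
  have e7 : √t₀ ≤ √t := Real.sqrt_le_sqrt htt
  linarith

end Pool.Agent.Helper60.NX
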