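import Pool.Agent.Helper6.NX.GoalsE
import Pool.Agent.Helper6.GP.LZW
import Pool.Agent.Helper6.W.Law

/-! Packet NX-LT: the lazy walk in a representation. -/

set_option linter.unusedVariables false

namespace Pool.Agent.Helper60.NX

open Matrix Equiv Filter Topology Pool.Agent.Helper15.An Pool.Agent.Helper6.NX
open scoped ComplexOrder
open Pool.Agent.Helper3.AK (lazyLaw)

theorem tr_spec {d : Type} [Fintype d] [DecidableEq d] (U : Matrix.unitaryGroup d ℂ) (f : d → ℂ) :
    trace ((U : Matrix d d ℂ) * diagonal f * (U : Matrix d d ℂ)ᴴ) = ∑ i, f i := by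
  rw [Matrix.trace_mul_comm, ← Matrix.mul_assoc, unitary_conj_mul, Matrix.one_mul,
    Matrix.trace_diagonal]

theorem thmLT : S_LT := by
  intro n k D T x ρ hk hu
  have hw := (Pool.Agent.Helper6.GP.lzw_all n k (2 * T) x hk).1 D ρ hu
  have hSP := tupW_isSP (by omega : 0 < k) x
  have hT0 := wop_isHermitian ρ hu hSP
  have hup := one_sub_wop ρ hu hSP
  have hlo := wop_add_one ρ hu hSP
  have key : ∀ hT : (wop ρ (tupW x)).IsHermitian, trace (wop ρ (lazyLaw x (2 * T))) =
      ((∑ i, ((1 + hT.eigenvalues i) / 2) ^ (2 * T) : ℝ) : ℂ) ∧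
      (∀ i, 0 ≤ (1 + hT.eigenvalues i) / 2 ∧ (1 + hT.eigenvalues i) / 2 ≤ 1) := by
    intro hT
    constructor
    · rw [hw, Pool.Agent.Helper6.W.lazy_pow_spec hT, tr_spec]
      push_cast
      rfl
    · intro i
      have h1 := le_eigenvalues_of hT _ hlo i
      have h2 := eigenvalues_le_of hT _ hup i
      constructor <;> linarith
  obtain ⟨k1, k2⟩ := key hT0
  refine ⟨?_, ?_, ?_, ?_⟩
  · rw [k1, Complex.ofReal_re]
  · rw [k1, Complex.ofReal_re]
    exact Finset.sum_nonneg fun i _ => pow_nonneg (k2 i).1 _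
  · rw [k1, Complex.ofReal_re]
    calc ∑ i, ((1 + hT0.eigenvalues i) / 2) ^ (2 * T) ≤ ∑ i : Fin D, (1 : ℝ) :=
          Finset.sum_le_sum fun i _ => pow_le_one₀ (k2 i).1 (k2 i).2
      _ = D := by simp
  · intro hT g hg0 hg1
    obtain ⟨k1, k2⟩ := key hT
    rw [k1, Complex.ofReal_re]
    calc (Fintype.card (TopIdx hT (1 - g)) : ℝ) * (1 - g / 2) ^ (2 * T)
        = ∑ j : TopIdx hT (1 - g), (1 - g / 2) ^ (2 * T) := by
          rw [Finset.sum_const, Finset.card_univ, nsmul_eq_mul]
      _ ≤ ∑ j : TopIdx hT (1 - g), ((1 + hT.eigenvalues j.1) / 2) ^ (2 * T) := by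
          refine Finset.sum_le_sum fun j _ => ?_
          have := j.2
          exact pow_le_pow_left₀ (by linarith) (by linarith) _
      _ = ∑ i ∈ (Finset.univ : Finset (TopIdx hT (1 - g))).map (Function.Embedding.subtype _),
            ((1 + hT.eigenvalues i) / 2) ^ (2 * T) := by
          rw [Finset.sum_map]
          rfl
      _ ≤ ∑ i, ((1 + hT.eigenvalues i) / 2) ^ (2 * T) :=
          Finset.sum_le_sum_of_subset_of_nonneg (Finset.subset_univ _)
            fun i _ _ => pow_nonneg (k2 i).1 _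

end Pool.Agent.Helper60.NX
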